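import Pool.Agent.Lib.HC.C.Main
import Pool.Agent.Lib.HC.P.Pol

/-!
# PROJECT HC, part C: `S_C` without hypothesis (helper35, helper17)
-/

set_option autoImplicit false

noncomputable section

namespace HC

theorem pPol : S_Pol := by
  intro X ι _ f
  obtain ⟨E, h1, h2, h3, h4⟩ := exists_polC X f
  exact ⟨E, fun u hu v hv => h1 u v hu hv, h2, h3, h4⟩

/-- PART C. -/
theorem tC : S_C := pC pPol

end HC
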