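import Pool.Agent.Lib.HC.Iface

/-!
# PROJECT HC, part C: the lattice of `∏ ℂ^(f i) / (f i)(O_K)` (definitions)
-/

set_option autoImplicit false

noncomputable section

namespace HC

variable {X : CMF} {ι : Type}

instance finiteGal (X : CMF) : Finite X.G := inferInstance

instance fintypeIdx [Fintype ι] (f : ι → Ty X) : Fintype ((i : ι) × (f i).S) :=
  Fintype.ofFinite _

/-- The lattice `∏ (f i)(O_K)`. -/
def LatP (f : ι → Ty X) : Submodule ℤ (PV f) where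
  carrier := {v | ∃ y : ι → X.K, (∀ i, IsIntegral ℤ (y i)) ∧
    ∀ (i : ι) (g : (f i).S), v ⟨i, g⟩ = X.τ (g.1 (y i))}
  zero_mem' := ⟨0, fun _ => isIntegral_zero, fun i g => by
    rw [Pi.zero_apply, Pi.zero_apply, map_zero, map_zero]⟩
  add_mem' := by
    rintro u v ⟨x, hx, hu⟩ ⟨y, hy, hv⟩
    refine ⟨x + y, fun i => (hx i).add (hy i), fun i g => ?_⟩
    rw [Pi.add_apply, Pi.add_apply, map_add, map_add, hu, hv]
  smul_mem' := by
    rintro m u ⟨x, hx, hu⟩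
    refine ⟨m • x, fun i => ?_, fun i g => ?_⟩
    · rw [Pi.smul_apply, zsmul_eq_mul]
      exact (isIntegral_algebraMap (R := ℤ) (x := m)).mul (hx i)
    · rw [Pi.smul_apply, Pi.smul_apply, map_zsmul, map_zsmul, hu]

theorem mem_LatP (f : ι → Ty X) (v : PV f) : v ∈ LatP f ↔ ∃ y : ι → X.K,
    (∀ i, IsIntegral ℤ (y i)) ∧ ∀ (i : ι) (g : (f i).S), v ⟨i, g⟩ = X.τ (g.1 (y i)) := Iff.rfl

/-- The Riemann form (helper17). -/
def S_Pol : Prop :=
  ∀ (X : CMF) (ι : Type) [Fintype ι] (f : ι → Ty X),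
    ∃ E : PV f →ₗ[ℝ] PV f →ₗ[ℝ] ℝ, (∀ u ∈ LatP f, ∀ v ∈ LatP f, ∃ n : ℤ, E u v = n) ∧
      (∀ u v, E u v = -E v u) ∧ (∀ u v, E (Complex.I • u) (Complex.I • v) = E u v) ∧
      ∀ v, v ≠ 0 → 0 < E (Complex.I • v) v

/-- The lattice (helper35). -/
def S_Lat : Prop :=
  ∀ (X : CMF) (ι : Type) [Fintype ι] (f : ι → Ty X),
    ∃ _ : DiscreteTopology (LatP f), IsZLattice ℝ (LatP f)

end HC
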