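import Pool.Agent.Lib.HC.C.Def

/-!
# PROJECT HC, part C: `LatP f` is a lattice (helper35)
-/

set_option autoImplicit false

open scoped ComplexConjugate

noncomputable section

namespace HC
namespace C

variable {X : CMF} {ι : Type}

/-- All embeddings are `τ ∘ g`. -/
theorem exists_gal (X : CMF) (p : X.K →+* ℂ) : ∃ g : X.G, ∀ x, p x = X.τ (g x) := by
  let _ : Algebra X.K ℂ := X.τ.toAlgebra
  have h1 : IsScalarTower ℚ X.K ℂ := IsScalarTower.of_algebraMap_eq fun x => by
    rw [eq_ratCast (algebraMap ℚ X.K), map_ratCast (algebraMap X.K ℂ), eq_ratCast]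
  let q : X.K →ₐ[ℚ] ℂ := RingHom.toRatAlgHom p
  refine ⟨q.restrictNormal' X.K, fun x => ?_⟩
  have := q.restrictNormal_commutes X.K x
  exact this.symm

theorem sum_sig {ι : Type} {σ : ι → Type} [Fintype ι] [∀ i, Fintype (σ i)]
    (inst : Fintype ((i : ι) × σ i)) (F : ((i : ι) × σ i) → ℂ) :
    (@Finset.univ _ inst).sum F = ∑ j, ∑ g, F ⟨j, g⟩ := by
  have h : inst = Sigma.instFintype := Subsingleton.elim _ _
  subst h
  exact Fintype.sum_sigma F

/-- Finiteness of the lattice points in a ball. -/
theorem finite_ball [Fintype ι] (f : ι → Ty X) (r : ℝ) :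
    ((LatP f : Set (PV f)) ∩ Metric.closedBall 0 r).Finite := by
  have h1 : {y : ι → X.K | ∀ i, y i ∈ {x : X.K | IsIntegral ℤ x ∧ ∀ φ : X.K →+* ℂ, ‖φ x‖ ≤ r}}.Finite :=
    Set.Finite.pi' fun i => NumberField.Embeddings.finite_of_norm_le X.K ℂ r
  refine (h1.image fun y => (fun s => X.τ (s.2.1 (y s.1)) : PV f)).subset ?_
  rintro v ⟨⟨y, hy, hv⟩, hr⟩
  refine ⟨y, fun i => ⟨hy i, fun φ => ?_⟩, ?_⟩
  · obtain ⟨g, hg⟩ := exists_gal X φ
    rw [mem_closedBall_zero_iff] at hr
    rw [hg]
    by_cases h : g ∈ (f i).S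
    · rw [← hv i ⟨g, h⟩]
      exact (norm_le_pi_norm v _).trans hr
    · have e : ‖X.τ (g (y i))‖ = ‖v ⟨i, ⟨X.c * g, Ty.cmem h⟩⟩‖ := by
        rw [hv i ⟨X.c * g, Ty.cmem h⟩]
        show _ = ‖X.τ (X.c (g (y i)))‖
        rw [X.hc, RCLike.norm_conj]
      rw [e]
      exact (norm_le_pi_norm v _).trans hr
  · funext s
    exact (hv s.1 s.2).symm

theorem discreteTopology [Fintype ι] (f : ι → Ty X) : DiscreteTopology (LatP f) := by
  refine discreteTopology_of_isOpen_singleton_zero ?_
  refine isOpen_singleton_of_finite_mem_nhds 0 (s := Metric.closedBall 0 1) ?_ ?_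
  · exact Metric.closedBall_mem_nhds _ (by simp)
  · refine Set.Finite.of_finite_image ?_ (Set.injOn_of_injective Subtype.val_injective)
    refine (finite_ball f 1).subset ?_
    rintro _ ⟨x, hx, rfl⟩
    exact ⟨Subtype.mem x, hx⟩

/-- Independence of the embeddings. -/
theorem indep (X : CMF) : LinearIndependent ℂ (fun g : X.G => fun x : X.K => X.τ (g x)) := by
  have h := linearIndependent_monoidHom X.K ℂ
  have h2 : Function.Injective fun g : X.G =>
      ((X.τ.comp (g : X.K →+* X.K) : X.K →+* ℂ) : X.K →* ℂ) := by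
    intro g g' hg
    apply AlgEquiv.ext
    intro x
    apply X.τ.injective
    exact DFunLike.congr_fun hg x
  exact h.comp _ h2

/-- A combination of the embeddings which vanishes on the integers is zero. -/
theorem coef_zero (α : X.G → ℂ) (h : ∀ y : X.K, IsIntegral ℤ y → ∑ g, α g * X.τ (g y) = 0)
    (g : X.G) : α g = 0 := by
  refine Fintype.linearIndependent_iff.1 (indep X) α ?_ g
  funext x
  rw [Finset.sum_apply, Pi.zero_apply]
  have halg : IsAlgebraic ℤ x := by
    have : IsAlgebraic ℚ x := Algebra.IsAlgebraic.isAlgebraic x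
    exact (IsFractionRing.isAlgebraic_iff ℤ ℚ X.K).mpr this
  obtain ⟨m, hm0, hm⟩ := halg.exists_integral_multiple
  have h1 := h (m • x) hm
  have h2 : ∀ g : X.G, α g * X.τ (g (m • x)) = (m : ℂ) * (α g * X.τ (g x)) := by
    intro g
    rw [map_zsmul, map_zsmul, zsmul_eq_mul]
    ring
  rw [Finset.sum_congr rfl fun g _ => h2 g, ← Finset.mul_sum] at h1
  rcases mul_eq_zero.1 h1 with h3 | h3
  · exact absurd (Int.cast_eq_zero.1 h3) hm0
  · exact h3

theorem span_top [Fintype ι] (f : ι → Ty X) :
    Submodule.span ℝ (LatP f : Set (PV f)) = ⊤ := by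
  classical
  by_contra hne
  obtain ⟨l, hl0, hl⟩ := Submodule.exists_le_ker_of_lt_top _ (lt_top_iff_ne_top.2 hne)
  apply hl0
  -- the coefficients
  let a : ((i : ι) × (f i).S) → ℂ := fun s =>
    ((l (Pi.single s 1) : ℝ) : ℂ) - Complex.I * ((l (Pi.single s Complex.I) : ℝ) : ℂ)
  have hre : ∀ s, (a s).re = l (Pi.single s 1) := fun s => by
    simp [a]
  have him : ∀ s, (a s).im = -l (Pi.single s Complex.I) := fun s => by
    simp [a]
  have hval : ∀ v : PV f, ((l v : ℝ) : ℂ) * 2 = ∑ s, (a s * v s + conj (a s * v s)) := by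
    intro v
    have hv : v = ∑ s, ((v s).re • (Pi.single s 1 : PV f) + (v s).im • (Pi.single s Complex.I : PV f)) := by
      funext s
      rw [Finset.sum_apply, Finset.sum_eq_single s]
      · rw [Pi.add_apply, Pi.smul_apply, Pi.smul_apply, Pi.single_eq_same, Pi.single_eq_same,
          Complex.real_smul, Complex.real_smul, mul_one]
        exact (Complex.re_add_im _).symm
      · intro t _ ht
        rw [Pi.add_apply, Pi.smul_apply, Pi.smul_apply, Pi.single_eq_of_ne ht.symm,
          Pi.single_eq_of_ne ht.symm, smul_zero, smul_zero, add_zero]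
      · intro h
        exact absurd (Finset.mem_univ s) h
    have h1 : l v = ∑ s, ((v s).re * (a s).re - (v s).im * (a s).im) := by
      conv_lhs => rw [hv]
      rw [map_sum]
      refine Finset.sum_congr rfl fun s _ => ?_
      rw [map_add, map_smul, map_smul, hre, him, smul_eq_mul, smul_eq_mul]
      ring
    rw [h1, Complex.ofReal_sum, Finset.sum_mul]
    refine Finset.sum_congr rfl fun s _ => ?_
    rw [Complex.add_conj, Complex.mul_re]
    push_cast
    ring
  have hzero : ∀ s, a s = 0 := by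
    rintro ⟨i, g0, hg0⟩
    let a' : X.G → ℂ := fun g => ∑ s : (f i).S, if (s : X.G) = g then a ⟨i, s⟩ else 0
    have ha1 : a' g0 = a ⟨i, g0, hg0⟩ := by
      show (∑ s : (f i).S, if (s : X.G) = g0 then a ⟨i, s⟩ else 0) = _
      rw [Finset.sum_eq_single ⟨g0, hg0⟩]
      · rw [if_pos rfl]
      · intro t _ ht
        rw [if_neg]
        intro h
        exact ht (Subtype.ext h)
      · intro h
        exact absurd (Finset.mem_univ _) h
    have ha2 : ∀ g, g ∉ (f i).S → a' g = 0 := by
      intro g hg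
      refine Finset.sum_eq_zero fun s _ => ?_
      rw [if_neg]
      rintro rfl
      exact hg s.2
    have ha3 : ∀ F : X.G → ℂ, ∑ g, a' g * F g = ∑ s : (f i).S, a ⟨i, s⟩ * F s := by
      intro F
      have e : ∀ g, a' g * F g = ∑ s : (f i).S, if (s : X.G) = g then a ⟨i, s⟩ * F g else 0 := by
        intro g
        show (∑ s : (f i).S, if (s : X.G) = g then a ⟨i, s⟩ else 0) * F g = _
        rw [Finset.sum_mul]
        refine Finset.sum_congr rfl fun s _ => ?_
        rw [ite_mul, zero_mul]
      rw [Finset.sum_congr rfl fun g _ => e g, Finset.sum_comm]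
      refine Finset.sum_congr rfl fun s _ => ?_
      rw [Finset.sum_ite_eq Finset.univ (s : X.G), if_pos (Finset.mem_univ _)]
    have hα := coef_zero (fun g => a' g + conj (a' (X.c * g))) (fun y hy => ?_) g0
    · have hc : X.c * g0 ∉ (f i).S := ((f i).cm g0).1 hg0
      simp only [ha2 _ hc, map_zero, add_zero] at hα
      rw [← ha1]
      exact hα
    · -- the lattice vector
      let v : PV f := fun s => X.τ (s.2.1 ((Pi.single i y : ι → X.K) s.1))
      have hvL : v ∈ LatP f := by
        refine ⟨Pi.single i y, fun j => ?_, fun j g => rfl⟩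
        by_cases hj : j = i
        · subst hj
          rw [Pi.single_eq_same]
          exact hy
        · rw [Pi.single_eq_of_ne hj]
          exact isIntegral_zero
      have hlv : l v = 0 := hl (Submodule.subset_span hvL)
      have h2 := hval v
      rw [hlv, Complex.ofReal_zero, zero_mul] at h2
      have h3 : ∑ s, (a s * v s + conj (a s * v s)) =
          ∑ j, ∑ g : (f j).S, (a ⟨j, g⟩ * v ⟨j, g⟩ + conj (a ⟨j, g⟩ * v ⟨j, g⟩)) := by
        exact sum_sig (σ := fun j => (f j).S) _ fun s => a s * v s + conj (a s * v s)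
      have hvi : ∀ g : (f i).S, v ⟨i, g⟩ = X.τ (g.1 y) := by
        intro g
        show X.τ (g.1 ((Pi.single i y : ι → X.K) i)) = _
        rw [Pi.single_eq_same]
      have h4 : ∑ j, ∑ g : (f j).S, (a ⟨j, g⟩ * v ⟨j, g⟩ + conj (a ⟨j, g⟩ * v ⟨j, g⟩)) =
          ∑ g : (f i).S, (a ⟨i, g⟩ * X.τ (g.1 y) + conj (a ⟨i, g⟩ * X.τ (g.1 y))) := by
        rw [Finset.sum_eq_single i]
        · refine Finset.sum_congr rfl fun g _ => ?_
          rw [hvi]
        · intro j _ hj
          refine Finset.sum_eq_zero fun g _ => ?_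
          have e : v ⟨j, g⟩ = 0 := by
            show X.τ (g.1 ((Pi.single i y : ι → X.K) j)) = 0
            rw [Pi.single_eq_of_ne hj, map_zero, map_zero]
          rw [e, mul_zero, map_zero, add_zero]
        · intro h
          exact absurd (Finset.mem_univ _) h
      rw [h3, h4, Finset.sum_add_distrib, ← map_sum] at h2
      have h5 : ∑ g, conj (a' (X.c * g)) * X.τ (g y) = conj (∑ g, a' g * X.τ (g y)) := by
        rw [map_sum]
        refine Fintype.sum_equiv (Equiv.mulLeft X.c) _ _ fun g => ?_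
        rw [Equiv.coe_mulLeft, map_mul]
        have e : X.τ (g y) = conj (X.τ ((X.c * g) y)) := by
          show _ = conj (X.τ (X.c (g y)))
          rw [X.hc, Complex.conj_conj]
        rw [e]
      have h6 : ∀ g : X.G, (a' g + conj (a' (X.c * g))) * X.τ (g y) =
          a' g * X.τ (g y) + conj (a' (X.c * g)) * X.τ (g y) := fun g => add_mul _ _ _
      rw [Finset.sum_congr rfl fun g _ => h6 g, Finset.sum_add_distrib, h5,
        ha3 (fun g => X.τ (g y))]
      exact h2.symm
  have : ∀ v, l v = 0 := by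
    intro v
    have h := hval v
    have h3 : ∑ s, (a s * v s + conj (a s * v s)) = 0 := by
      refine Finset.sum_eq_zero fun s _ => ?_
      rw [hzero s, zero_mul, map_zero, add_zero]
    rw [h3] at h
    have h4 : ((l v : ℝ) : ℂ) = 0 := by
      rcases mul_eq_zero.1 h with h5 | h5
      · exact h5
      · exact absurd h5 two_ne_zero
    exact Complex.ofReal_eq_zero.1 h4
  exact LinearMap.ext this

/-- The lattice. -/
theorem pLat : S_Lat := fun _ _ _ f =>
  ⟨discreteTopology f, @IsZLattice.mk ℝ _ _ _ _ (LatP f) (discreteTopology f) (span_top f)⟩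

end C
end HC
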