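import Pool.Agent.Lib.HC.C.Lat

/-!
# PROJECT HC, part C: the products exist (helper35)
-/

set_option autoImplicit false

noncomputable section

namespace HC

/-- `S_C` from the Riemann form. -/
theorem pC (h : S_Pol) : S_C := by
  intro X ι _ f
  obtain ⟨hd, hz⟩ := C.pLat X ι f
  let T : AV :=
    { V := PV f
      L := LatP f
      disc := hd
      latt := hz
      pol := h X ι f }
  exact ⟨T, ⟨{ ψ := LinearEquiv.refl ℂ (PV f), lat := fun v => Iff.rfl }⟩⟩

end HC
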